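import Pool.Agent.Lib.MP_79fcf0_nt.Final

namespace Pool.Agent.Results.MP_79fcf0_nt.LogLower

open Pool.Agent.Lib.MP_79fcf0_nt

/-- For all large primes `p ≡ 1 (mod 4)` there is an admissible set of at least `ln p` residues:
`N(p) ≥ ln p`. -/
theorem result : ∃ p₀ : ℕ, ∀ p : ℕ, p.Prime → p % 4 = 1 → p₀ ≤ p →
    ∃ S : Finset (ZMod p), Admissible S ∧ Real.log p ≤ S.card := main

end Pool.Agent.Results.MP_79fcf0_nt.LogLower
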