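import Pool.Agent.Lib.MP_79fcf0_nt.U.Switch

namespace Pool.Agent.Results.MP_79fcf0_nt.Switch

open Pool.Agent.Lib.MP_79fcf0_nt

/-- If `m ∣ p - 1` and `(x - y) (y - z) (z - x)` has the same quadratic character for all triples
of distinct `m`-th roots of unity modulo `p`, then `N(p) ≥ (m ^ 2 / (2 J₂(m)) - o(1)) log₂ p`. -/
theorem result : ∀ m : ℕ, 0 < m → ∀ ε : ℝ, 0 < ε → ∃ p₀ : ℕ, ∀ p : ℕ, p.Prime → p % 4 = 1 →
    p₀ ≤ p → m ∣ p - 1 → ∀ w : ZMod p, w ≠ 0 →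
      (∀ x y z : ZMod p, x ^ m = 1 → y ^ m = 1 → z ^ m = 1 → x ≠ y → y ≠ z → z ≠ x →
        IsSquare (w * ((x - y) * (y - z) * (z - x)))) →
      ∃ S : Finset (ZMod p), Admissible S ∧
        ((m : ℝ) ^ 2 / (2 * jordan m) - ε) * Real.logb 2 p ≤ S.card := main_switch

end Pool.Agent.Results.MP_79fcf0_nt.Switch
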