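import Pool.Agent.Lib.MP_79fcf0_nt.HPg

namespace Pool.Agent.Results.MP_79fcf0_nt.UpperHP

open Pool.Agent.Lib.MP_79fcf0_nt

/-- For primes `p ≡ 1 (mod 4)`, `p > 41`, every admissible set modulo `p ^ n` of size `N` has
`2 N ^ 2 + 3 N + 4 ≤ p`. -/
theorem result (p n : ℕ) (hp : p.Prime) (h4 : p % 4 = 1) (h41 : 41 < p) (hn : 1 ≤ n)
    (S : Finset (ZMod (p ^ n))) (hS : Admissible S) :
    2 * S.card ^ 2 + 3 * S.card + 4 ≤ p := HP.upper p n hp h4 h41 hn S hS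

end Pool.Agent.Results.MP_79fcf0_nt.UpperHP
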